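import Pool.Agent.H41.CP.Stmts

/-!
Project CP (helper41), job COV: from permutation covers to covers with partial matchings.
-/

set_option autoImplicit false

namespace Pool.Agent.H396.CP

open Pool.Agent.H41.CP

/-- a partial injection extends to a permutation -/
theorem ext_perm {k : ℕ} (R : Fin k → Fin k → Prop) (h1 : ∀ i j j', R i j → R i j' → j = j')
    (h2 : ∀ i i' j, R i j → R i' j → i = i') :
    ∃ p : Equiv.Perm (Fin k), ∀ i j, R i j → p i = j := by
  classical
  have hf : ∀ i : Fin k, ∃ j : Fin k, ∀ j', R i j' → j = j' := by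
    intro i
    by_cases h : ∃ j, R i j
    · obtain ⟨j, hj⟩ := h
      exact ⟨j, fun j' hj' => h1 i j j' hj hj'⟩
    · exact ⟨i, fun j' hj' => absurd ⟨j', hj'⟩ h⟩
  choose f hf using hf
  have hinj : Set.InjOn f ((Finset.univ.filter fun i => ∃ j, R i j : Finset (Fin k)) :
      Set (Fin k)) := by
    intro i hi i' hi' hff
    obtain ⟨j, hj⟩ := (Finset.mem_filter.1 (Finset.mem_coe.1 hi)).2
    obtain ⟨j', hj'⟩ := (Finset.mem_filter.1 (Finset.mem_coe.1 hi')).2
    have e1 := hf i j hj
    have e2 := hf i' j' hj'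
    have e3 : j = j' := by rw [← e1, ← e2, hff]
    rw [← e3] at hj'
    exact h2 i i' j hj hj'
  obtain ⟨g, hg⟩ := Finset.exists_equiv_extend_of_card_eq (α := Fin k) (t := Finset.univ)
    (by rw [Finset.card_univ]) (f := f) (Finset.subset_univ _) hinj
  refine ⟨g.trans (Equiv.subtypeUnivEquiv fun x => Finset.mem_univ x), fun i j hij => ?_⟩
  have h3 := hg i (Finset.mem_filter.2 ⟨Finset.mem_univ i, j, hij⟩)
  change (g i : Fin k) = j
  rw [h3]
  exact hf i j hij

theorem cov : S_COV := by
  classical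
  intro V _ G k hσ M hsym huniq
  have hp : ∀ u v : V, ∃ p : Equiv.Perm (Fin k), G.Adj u v → ∀ i j, M u v i j → p i = j := by
    intro u v
    by_cases huv : G.Adj u v
    · obtain ⟨p, hp⟩ := ext_perm (M u v) (huniq u v huv)
        (fun i i' j h h' => huniq v u huv.symm j i i' (hsym u v i j h) (hsym u v i' j h'))
      exact ⟨p, fun _ => hp⟩
    · exact ⟨1, fun h => absurd h huv⟩
  choose p hp using hp
  let e := Fintype.equivFin V
  let σ : V → V → Equiv.Perm (Fin k) := fun u v => if e u < e v then p u v else (p v u)⁻¹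
  have hσ1 : ∀ u v, G.Adj u v → σ v u = (σ u v)⁻¹ := by
    intro u v huv
    have hne : e u ≠ e v := fun h => huv.ne (e.injective h)
    change (if e v < e u then p v u else (p u v)⁻¹) = (if e u < e v then p u v else (p v u)⁻¹)⁻¹
    rcases lt_or_gt_of_ne hne with h | h
    · rw [if_neg (not_lt.2 h.le), if_pos h]
    · rw [if_pos h, if_neg (not_lt.2 h.le), inv_inv]
  have hσ2 : ∀ u v, G.Adj u v → ∀ i j, M u v i j → σ u v i = j := by
    intro u v huv i j hij
    change (if e u < e v then p u v else (p v u)⁻¹) i = j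
    split_ifs with h
    · exact hp u v huv i j hij
    · rw [Equiv.Perm.inv_eq_iff_eq]
      exact (hp v u huv.symm j i (hsym u v i j hij)).symm
  obtain ⟨φ, hφ⟩ := hσ σ hσ1
  refine ⟨fun i v => φ v i, fun v => (φ v).injective, fun i u v huv hM => ?_⟩
  exact hφ u v huv i (hσ2 u v huv _ _ hM).symm

end Pool.Agent.H396.CP
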